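import Pool.Agent.Helper67.RG.GStmts

/-! # Kit for SAT and STEP: ideals of the total ring, socle induction, homogeneous substitution -/

namespace Pool.Agent.Helper56.RG

open Pool.Agent.Helper67.RG MvPolynomial

/-! ## socle induction -/

theorem socle_induction {A : Type} [CommRing A] [IsNoetherianRing A] (m0 : Ideal A)
    (C : Ideal A → Prop) (k : ℕ) (hbase : C m0)
    (hstep : ∀ (I : Ideal A) (ε : A), m0 ^ k ≤ I → I ≤ m0 → ε ∈ m0 → ε ∉ I →
      (∀ a ∈ m0, a * ε ∈ I) → C (I ⊔ Ideal.span {ε}) → C I) :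
    ∀ I : Ideal A, m0 ^ k ≤ I → I ≤ m0 → C I := by
  intro I
  induction I using WellFoundedGT.induction with
  | ind I ih =>
    intro hk hI
    by_cases hIm : I = m0
    · rw [hIm]; exact hbase
    · classical
      have hex : ∃ j, m0 ^ j ≤ I := ⟨k, hk⟩
      set j := Nat.find hex with hj
      have hj1 : m0 ^ j ≤ I := Nat.find_spec hex
      have hj0 : j ≠ 0 := by
        intro h
        rw [h, pow_zero, Ideal.one_eq_top] at hj1
        exact hIm (le_antisymm hI (le_trans le_top hj1))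
      obtain ⟨j', hj'⟩ := Nat.exists_eq_succ_of_ne_zero hj0
      have hnot : ¬ m0 ^ j' ≤ I := Nat.find_min hex (by omega)
      have hj'0 : j' ≠ 0 := by
        intro h
        rw [hj', h, pow_one] at hj1
        exact hIm (le_antisymm hI hj1)
      obtain ⟨ε, hε, hεI⟩ := Set.not_subset.1 hnot
      have hεm : ε ∈ m0 := Ideal.pow_le_self hj'0 hε
      have hsoc : ∀ a ∈ m0, a * ε ∈ I := by
        intro a ha
        apply hj1
        rw [hj', pow_succ']
        exact Ideal.mul_mem_mul ha hε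
      refine hstep I ε hk hI hεm hεI hsoc (ih _ ?_ (hk.trans le_sup_left) ?_)
      · refine lt_of_le_of_ne le_sup_left fun h => hεI ?_
        rw [h]
        exact Ideal.mem_sup_right (Ideal.mem_span_singleton_self ε)
      · refine sup_le hI ?_
        rw [Ideal.span_le]
        intro a ha
        rw [Set.mem_singleton_iff.1 ha]
        exact hεm

/-! ## ideals of the total ring of a family -/

section

variable {g d : ℕ} {A : Type} [CommRing A] [Algebra ℂ A] (F : Family g d A)

/-- the extension of an ideal to the total ring -/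
def IR (I : Ideal A) : Ideal F.R := Ideal.map (algebraMap A F.R) I

variable {F}

theorem gr_mul {i j n : ℕ} {x y : F.R} (hx : x ∈ F.gr i) (hy : y ∈ F.gr j) (h : i + j = n) :
    x * y ∈ F.gr n := h ▸ SetLike.mul_mem_graded hx hy

theorem gr_pow {i n : ℕ} (k : ℕ) {x : F.R} (hx : x ∈ F.gr i) (h : k * i = n) :
    x ^ k ∈ F.gr n := by
  have := SetLike.pow_mem_graded (A := F.gr) k hx
  rw [smul_eq_mul, h] at this
  exact this

theorem smul_le_IR (I : Ideal A) (n : ℕ) {z : F.R} (hz : z ∈ I • F.gr n) : z ∈ IR F I := by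
  refine Submodule.smul_induction_on hz ?_ ?_
  · intro r hr x _
    rw [Algebra.smul_def]
    exact Ideal.mul_mem_right _ _ (Ideal.mem_map_of_mem _ hr)
  · intro x y hx hy
    exact Ideal.add_mem _ hx hy

theorem mem_smul_of_IR (I : Ideal A) {n : ℕ} {z : F.R} (hz : z ∈ F.gr n) (h : z ∈ IR F I) :
    z ∈ I • F.gr n := by
  have h1 : z ∈ I • (⊤ : Submodule A F.R) := by
    unfold IR at h
    rw [Ideal.map] at h
    refine Submodule.span_induction (p := fun z _ => z ∈ I • (⊤ : Submodule A F.R)) ?_ ?_ ?_ ?_ h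
    · rintro x ⟨a, ha, rfl⟩
      have : algebraMap A F.R a = a • (1 : F.R) := by rw [Algebra.smul_def, mul_one]
      rw [this]
      exact Submodule.smul_mem_smul ha trivial
    · exact Submodule.zero_mem _
    · intro x y _ _ hx hy
      exact Submodule.add_mem _ hx hy
    · intro r x _ hx
      rw [smul_eq_mul]
      refine Submodule.smul_induction_on hx ?_ ?_
      · intro a ha y _
        rw [mul_smul_comm]
        exact Submodule.smul_mem_smul ha trivial
      · intro x y hx hy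
        rw [mul_add]
        exact Submodule.add_mem _ hx hy
  have h2 : GradedAlgebra.proj F.gr n z ∈ Submodule.map (GradedAlgebra.proj F.gr n)
      (I • (⊤ : Submodule A F.R)) := ⟨z, h1, rfl⟩
  rw [Submodule.map_smul''] at h2
  have h3 : GradedAlgebra.proj F.gr n z = z := by
    rw [GradedAlgebra.proj_apply, DirectSum.decompose_of_mem_same _ hz]
  rw [h3] at h2
  refine Submodule.smul_mono le_rfl ?_ h2
  rintro _ ⟨y, -, rfl⟩
  rw [GradedAlgebra.proj_apply]
  exact SetLike.coe_mem _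

theorem IR_mono {I I' : Ideal A} (h : I ≤ I') : IR F I ≤ IR F I' := Ideal.map_mono h

theorem IR_smul {I : Ideal A} {a : A} (ha : a ∈ I) (z : F.R) : a • z ∈ IR F I := by
  rw [Algebra.smul_def]
  exact Ideal.mul_mem_right _ _ (Ideal.mem_map_of_mem _ ha)

theorem IR_socle {I m0 : Ideal A} {ε : A} (h : ∀ a ∈ m0, a * ε ∈ I) {z : F.R}
    (hz : z ∈ IR F m0) : ε • z ∈ IR F I := by
  unfold IR at hz
  rw [Ideal.map] at hz
  refine Submodule.span_induction (p := fun z _ => ε • z ∈ IR F I) ?_ ?_ ?_ ?_ hz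
  · rintro x ⟨a, ha, rfl⟩
    rw [Algebra.smul_def, ← map_mul, mul_comm]
    exact Ideal.mem_map_of_mem _ (h a ha)
  · rw [smul_zero]; exact Ideal.zero_mem _
  · intro x y _ _ hx hy
    rw [smul_add]
    exact Ideal.add_mem _ hx hy
  · intro r x _ hx
    rw [smul_eq_mul, ← mul_smul_comm]
    exact Ideal.mul_mem_left _ _ hx

theorem IR_sup {I : Ideal A} {ε : A} {n : ℕ} {z : F.R} (hz : z ∈ F.gr n)
    (h : z ∈ IR F (I ⊔ Ideal.span {ε})) : ∃ z1 ∈ IR F I, ∃ z2 ∈ F.gr n, z = z1 + ε • z2 := by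
  have h1 := mem_smul_of_IR _ hz h
  rw [Submodule.sup_smul] at h1
  obtain ⟨a, ha, b, hb, hab⟩ := Submodule.mem_sup.1 h1
  rw [Submodule.ideal_span_singleton_smul] at hb
  obtain ⟨c, hc, hcb⟩ := (Submodule.mem_smul_pointwise_iff_exists _ _ _).1 hb
  exact ⟨a, smul_le_IR _ _ ha, c, hc, by rw [hcb, hab]⟩

variable {X : Pair g d} {b0 : A →ₐ[ℂ] ℂ} (S : At X F b0)

theorem sp_smul (a : A) (z : F.R) : S.sp (a • z) = algebraMap ℂ X.R (b0 a) * S.sp z := by
  rw [Algebra.smul_def, map_mul, S.alg]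

theorem sp_smul_ker {a : A} (ha : a ∈ RingHom.ker b0) (z : F.R) : S.sp (a • z) = 0 := by
  have : b0 a = 0 := ha
  rw [sp_smul, this, map_zero, zero_mul]

theorem sp_IR {I : Ideal A} (hI : I ≤ RingHom.ker b0) {z : F.R} (hz : z ∈ IR F I) :
    S.sp z = 0 := by
  unfold IR at hz
  have h : Ideal.map (algebraMap A F.R) I ≤ RingHom.ker S.sp := by
    rw [Ideal.map_le_iff_le_comap]
    intro a ha
    change S.sp (algebraMap A F.R a) = 0
    have : b0 a = 0 := hI ha
    rw [S.alg, this, map_zero]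
  exact h hz

theorem ker_IR {n : ℕ} (hn : F.n0 ≤ n) {z : F.R} (hz : z ∈ F.gr n) (h : S.sp z = 0) :
    z ∈ IR F (RingHom.ker b0) := smul_le_IR _ _ (S.ker n hn z hz h)

/-! ## substitution in homogeneous polynomials -/

theorem hom_degree {l : ℕ} {P : MvPolynomial (Fin 12) ℂ} (hP : P.IsHomogeneous l)
    {e : Fin 12 →₀ ℕ} (he : e ∈ P.support) : ∑ i, e i = l := by
  have h := hP (mem_support_iff.1 he)
  rw [Finsupp.weight_apply, Finsupp.sum_fintype _ _ (fun i => by simp)] at h
  simpa using h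

theorem ev_mul_hom {l : ℕ} {P : MvPolynomial (Fin 12) ℂ} (hP : P.IsHomogeneous l) (v : F.R)
    (w : Fin 12 → F.R) : ev F (fun i => v * w i) P = v ^ l * ev F w P := by
  unfold ev
  rw [eval₂_eq', eval₂_eq', Finset.mul_sum]
  refine Finset.sum_congr rfl fun e he => ?_
  have h1 : ∏ i, (v * w i) ^ e i = v ^ l * ∏ i, w i ^ e i := by
    rw [← hom_degree hP he, ← Finset.prod_pow_eq_pow_sum, ← Finset.prod_mul_distrib]
    exact Finset.prod_congr rfl fun i _ => mul_pow _ _ _
  rw [h1]
  ring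

theorem aeval_mul_hom {R : Type} [CommRing R] [Algebra ℂ R] {l : ℕ}
    {P : MvPolynomial (Fin 12) ℂ} (hP : P.IsHomogeneous l) (v : R)
    (w : Fin 12 → R) : aeval (fun i => w i * v) P = v ^ l * aeval w P := by
  rw [aeval_def, aeval_def, eval₂_eq', eval₂_eq', Finset.mul_sum]
  refine Finset.sum_congr rfl fun e he => ?_
  have h1 : ∏ i, (w i * v) ^ e i = v ^ l * ∏ i, w i ^ e i := by
    rw [← hom_degree hP he, ← Finset.prod_pow_eq_pow_sum, ← Finset.prod_mul_distrib]
    exact Finset.prod_congr rfl fun i _ => by rw [mul_pow, mul_comm]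
  rw [h1]
  ring

theorem ev_mem {l j n : ℕ} {P : MvPolynomial (Fin 12) ℂ} (hP : P.IsHomogeneous l)
    {w : Fin 12 → F.R} (hw : ∀ i, w i ∈ F.gr j) (hn : l * j = n) : ev F w P ∈ F.gr n := by
  unfold ev
  rw [eval₂_eq']
  refine Submodule.sum_mem _ fun e he => ?_
  rw [RingHom.comp_apply, ← Algebra.smul_def]
  refine Submodule.smul_mem _ _ ?_
  have h1 := SetLike.prod_pow_mem_graded (A := F.gr) (F := Finset.univ) (i := fun _ => j)
    (g := w) (fun i => e i) (fun k _ => hw k)
  have h2 : ∑ k, e k • j = n := by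
    rw [← Finset.sum_smul, hom_degree hP he, smul_eq_mul, hn]
  rw [h2] at h1
  exact h1

theorem sp_ev (w : Fin 12 → F.R) (P : MvPolynomial (Fin 12) ℂ) :
    S.sp (ev F w P) = aeval (fun i => S.sp (w i)) P := by
  unfold ev
  rw [aeval_def, MvPolynomial.hom_eval₂]
  congr 1
  ext c
  simp only [RingHom.comp_apply]
  rw [S.alg, AlgHom.commutes]
  rfl

theorem ev_mul (w : Fin 12 → F.R) (P Q : MvPolynomial (Fin 12) ℂ) :
    ev F w (P * Q) = ev F w P * ev F w Q := by
  unfold ev; exact eval₂_mul _ _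

theorem ev_sub (w : Fin 12 → F.R) (P Q : MvPolynomial (Fin 12) ℂ) :
    ev F w (P - Q) = ev F w P - ev F w Q := by
  unfold ev
  rw [← coe_eval₂Hom, map_sub]

theorem ev_pow (w : Fin 12 → F.R) (P : MvPolynomial (Fin 12) ℂ) (n : ℕ) :
    ev F w (P ^ n) = ev F w P ^ n := by
  unfold ev; exact eval₂_pow _ _

end

/-! ## quotients of homogeneous elements in the section ring -/

theorem hom_quot {g d : ℕ} (X : Pair g d) {i n : ℕ} {c w z : X.R} (hc : c ∈ X.gr i)
    (hw : w ∈ X.gr (i + n)) (h : w = c * z) : ∃ z' ∈ X.gr n, w = c * z' := by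
  refine ⟨(DirectSum.decompose X.gr z n : X.R), SetLike.coe_mem _, ?_⟩
  have h1 := DirectSum.coe_decompose_mul_add_of_left_mem (𝒜 := X.gr) (j := n) (b := z) hc
  rw [← h, DirectSum.decompose_of_mem_same _ hw] at h1
  exact h1

end Pool.Agent.Helper56.RG
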