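import Pool.Agent.Helper56.RG.Kit

/-! # Module SAT -/

namespace Pool.Agent.Helper56.RG

open Pool.Agent.Helper67.RG MvPolynomial

section

variable {g d : ℕ} {X : Pair g d} {A : Type} [CommRing A] [IsDomain A] [Algebra ℂ A]
  [Algebra.FiniteType ℂ A] {F : Family g d A} {b0 : A →ₐ[ℂ] ℂ} {S : At X F b0}

/-- REG in terms of ideals of the total ring -/
theorem reg' (hREG : ST_REG) {n n1 : ℕ} (hn : F.n0 ≤ n) {I : Ideal A} {k : ℕ}
    (hk : RingHom.ker b0 ^ k ≤ I) (hI : I ≤ RingHom.ker b0) {c z : F.R} (hc : c ∈ F.gr n1)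
    (hc0 : S.sp c ≠ 0) (hz : z ∈ F.gr n) (h : c * z ∈ IR F I) : z ∈ IR F I :=
  smul_le_IR _ _ (hREG g d X A F b0 S n n1 hn I k hk hI c z hc hc0 hz
    (mem_smul_of_IR _ (gr_mul hc hz rfl) h))

omit [IsDomain A] [Algebra.FiniteType ℂ A] in
/-- FLAT in terms of ideals of the total ring -/
theorem flat' (hFLAT : ST_FLAT) {n : ℕ} (hn : F.n0 ≤ n) {I : Ideal A} {ε : A} (hε : ε ∉ I)
    (hs : ∀ a ∈ RingHom.ker b0, a * ε ∈ I) {z : F.R} (hz : z ∈ F.gr n)
    (h : ε • z ∈ IR F I) : S.sp z = 0 :=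
  hFLAT g d X A F b0 S n hn I ε hε hs z hz (mem_smul_of_IR _ (Submodule.smul_mem _ _ hz) h)

end

theorem st_SAT (hFLAT : ST_FLAT) (hREG : ST_REG) : ST_SAT := by
  intro g d X E A _ _ _ _ F b0 S L I k hk hI l hl P hP
  have hnoeth : IsNoetherianRing A := Algebra.FiniteType.isNoetherianRing ℂ A
  have hL1 : F.n0 ≤ l * (L.n + 1) := hl.trans (Nat.le_mul_of_pos_right l (Nat.succ_pos _))
  -- the degree of `u ^ l`
  have hul : L.u ^ l ∈ F.gr (l * L.n) := gr_pow l L.hu rfl
  have hul0 : S.sp (L.u ^ l) ≠ 0 := by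
    rw [map_pow]; exact pow_ne_zero _ L.u0
  have hevP : ev F L.y P ∈ F.gr (l * (L.n + 1)) := ev_mem hP L.hy rfl
  have hspP : S.sp (ev F L.y P) = S.sp L.u ^ l * aeval E.x P := by
    rw [sp_ev]
    have : (fun i => S.sp (L.y i)) = fun i => E.x i * S.sp L.u := funext L.y0
    rw [this, aeval_mul_hom hP]
  have main := socle_induction (RingHom.ker b0)
    (fun I => ∃ U ∈ F.gr l, S.sp U = aeval E.x P ∧ L.u ^ l * U - ev F L.y P ∈ IR F I) k ?_ ?_
    I hk hI
  · obtain ⟨U, hU, hU1, hU2⟩ := main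
    exact ⟨U, hU, hU1, mem_smul_of_IR _
      (Submodule.sub_mem _ (gr_mul hul hU (by ring)) hevP) hU2⟩
  · -- base case
    have hx : aeval E.x P ∈ X.gr l := by
      rw [aeval_def, eval₂_eq']
      refine Submodule.sum_mem _ fun e he => ?_
      rw [← Algebra.smul_def]
      refine Submodule.smul_mem _ _ ?_
      have h1 := SetLike.prod_pow_mem_graded (A := X.gr) (F := Finset.univ) (i := fun _ => 1)
        (g := E.x) (fun i => e i) (fun k _ => E.x_mem k)
      have h2 : ∑ k, e k • 1 = l := by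
        rw [← Finset.sum_smul, hom_degree hP he, smul_eq_mul, mul_one]
      rw [h2] at h1
      exact h1
    obtain ⟨U, hU, hU1⟩ := S.surj l hl _ hx
    refine ⟨U, hU, hU1, ker_IR S hL1
      (Submodule.sub_mem _ (gr_mul hul hU (by ring)) hevP) ?_⟩
    rw [map_sub, map_mul, map_pow, hU1, hspP, sub_self]
  · -- step
    rintro I ε hk hI hε hεI hsoc ⟨U, hU, hU1, hU2⟩
    have hk' : RingHom.ker b0 ^ k ≤ I ⊔ Ideal.span {ε} := hk.trans le_sup_left
    have hI' : I ⊔ Ideal.span {ε} ≤ RingHom.ker b0 := by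
      refine sup_le hI ?_
      rw [Ideal.span_le]
      intro a ha
      rw [Set.mem_singleton_iff.1 ha]
      exact hε
    have hdiff : L.u ^ l * U - ev F L.y P ∈ F.gr (l * (L.n + 1)) :=
      Submodule.sub_mem _ (gr_mul hul hU (by ring)) hevP
    obtain ⟨z1, hz1, z, hz, hz12⟩ := IR_sup hdiff hU2
    -- divisibility for `t = 0, 1`
    have hdiv : ∀ t : Fin 12, S.sp L.u ^ l ∣ S.sp z * E.x t ^ (L.n * l) := by
      intro t
      have hxt : E.x t ^ L.n ∈ X.gr L.n := by
        have := SetLike.pow_mem_graded (A := X.gr) L.n (E.x_mem t)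
        rw [smul_eq_mul, mul_one] at this
        exact this
      obtain ⟨c0, hc0, hc01⟩ := S.surj L.n L.hn _ hxt
      choose c' hc' hyc using fun i => L.div i c0 hc0
      have hV : ev F c' P ∈ F.gr (l * (L.n + 1)) := ev_mem hP hc' rfl
      have hc0l : c0 ^ l ∈ F.gr (l * L.n) := gr_pow l hc0 rfl
      have hPV : ev F L.y P * c0 ^ l = L.u ^ l * ev F c' P := by
        rw [mul_comm, ← ev_mul_hom hP, ← ev_mul_hom hP]
        congr 1
        funext i
        rw [mul_comm, hyc i]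
      have hX : U * c0 ^ l - ev F c' P ∈ F.gr (l * (L.n + 1)) :=
        Submodule.sub_mem _ (gr_mul hU hc0l (by ring)) hV
      have e1 : L.u ^ l * (U * c0 ^ l - ev F c' P) = z1 * c0 ^ l + ε • (z * c0 ^ l) := by
        have : L.u ^ l * (U * c0 ^ l - ev F c' P) =
            (L.u ^ l * U - ev F L.y P) * c0 ^ l := by
          rw [mul_sub, ← hPV]; ring
        rw [this, hz12, add_mul, smul_mul_assoc]
      have h1 : L.u ^ l * (U * c0 ^ l - ev F c' P) ∈ IR F (I ⊔ Ideal.span {ε}) := by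
        rw [e1]
        refine Ideal.add_mem _ (Ideal.mul_mem_right _ _ (IR_mono le_sup_left hz1)) ?_
        exact IR_smul (Ideal.mem_sup_right (Ideal.mem_span_singleton_self ε)) _
      have h2 := reg' hREG hL1 hk' hI' hul hul0 hX h1
      obtain ⟨v1, hv1, V', hV', hv⟩ := IR_sup hX h2
      have e2 : ε • (z * c0 ^ l - L.u ^ l * V') = L.u ^ l * v1 - z1 * c0 ^ l := by
        rw [hv] at e1
        rw [smul_sub]
        have e3 : L.u ^ l * (v1 + ε • V') = L.u ^ l * v1 + ε • (L.u ^ l * V') := by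
          rw [mul_add, mul_smul_comm]
        rw [e3] at e1
        linear_combination -e1
      have h3 : S.sp (z * c0 ^ l - L.u ^ l * V') = 0 := by
        refine flat' hFLAT (n := l * (L.n + 1) + l * L.n) (hL1.trans (Nat.le_add_right _ _))
          hεI hsoc ?_ ?_
        · exact Submodule.sub_mem _ (gr_mul hz hc0l rfl) (gr_mul hul hV' (by ring))
        · rw [e2]
          exact Ideal.sub_mem _ (Ideal.mul_mem_left _ _ hv1) (Ideal.mul_mem_right _ _ hz1)
      rw [map_sub, map_mul, map_mul, map_pow, map_pow, hc01, sub_eq_zero] at h3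
      exact ⟨S.sp V', by rw [← h3, ← pow_mul]⟩
    have hgood := E.good (S.sp z) (S.sp L.u ^ l) (L.n * l) (pow_ne_zero _ L.u0) (hdiv 0) (hdiv 1)
    obtain ⟨z0, hz0⟩ := hgood
    have hspu : S.sp L.u ^ l ∈ X.gr (l * L.n) := by
      rw [← map_pow]; exact S.gr _ _ hul
    have hspz : S.sp z ∈ X.gr (l * L.n + l) := by
      have := S.gr _ _ hz
      have e : l * (L.n + 1) = l * L.n + l := by ring
      rwa [e] at this
    obtain ⟨z0', hz0'm, hz0'⟩ := hom_quot X hspu hspz hz0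
    obtain ⟨Z, hZ, hZ1⟩ := S.surj l hl _ hz0'm
    refine ⟨U - ε • Z, Submodule.sub_mem _ hU (Submodule.smul_mem _ _ hZ), ?_, ?_⟩
    · rw [map_sub, sp_smul_ker S hε, sub_zero, hU1]
    · have e4 : L.u ^ l * (U - ε • Z) - ev F L.y P = z1 + ε • (z - L.u ^ l * Z) := by
        rw [mul_sub, mul_smul_comm, smul_sub]
        linear_combination hz12
      rw [e4]
      refine Ideal.add_mem _ hz1 (IR_socle hsoc (ker_IR S hL1 ?_ ?_))
      · exact Submodule.sub_mem _ hz (gr_mul hul hZ (by ring))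
      · rw [map_sub, map_mul, map_pow, hZ1, ← hz0', sub_self]

end Pool.Agent.Helper56.RG
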