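import Pool.Agent.Helper56.RG.SAT

/-! # Module STEP -/

namespace Pool.Agent.Helper56.RG

open Pool.Agent.Helper67.RG MvPolynomial

/-- expansion of `(W + ε Z)^(n+1)` modulo `ε²` -/
theorem pow_expand {g d : ℕ} {A : Type} [CommRing A] [Algebra ℂ A] {F : Family g d A} {m : ℕ}
    {W Z : F.R} (hW : W ∈ F.gr m) (hZ : Z ∈ F.gr m) (ε : A) (n : ℕ) :
    ∃ Q ∈ F.gr (m * (n + 1)), (W + ε • Z) ^ (n + 1) =
      W ^ (n + 1) + ε • (((n + 1 : ℕ) : F.R) * (W ^ n * Z)) + (ε * ε) • Q := by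
  induction n with
  | zero =>
    exact ⟨0, Submodule.zero_mem _, by simp⟩
  | succ n ih =>
    obtain ⟨Q, hQ, h⟩ := ih
    refine ⟨((n + 1 : ℕ) : F.R) * (W ^ n * Z) * Z + Q * W + ε • (Q * Z), ?_, ?_⟩
    · have h1 : W ^ n * Z * Z ∈ F.gr (m * (n + 1 + 1)) :=
        gr_mul (gr_mul (gr_pow n hW rfl) hZ rfl) hZ (by ring)
      have h2 : ((n + 1 : ℕ) : F.R) * (W ^ n * Z) * Z = (n + 1) • (W ^ n * Z * Z) := by
        rw [nsmul_eq_mul, mul_assoc]
      rw [h2]
      refine Submodule.add_mem _ (Submodule.add_mem _ (Submodule.smul_of_tower_mem _ _ h1) ?_)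
        (Submodule.smul_mem _ _ ?_)
      · exact gr_mul hQ hW (by ring)
      · exact gr_mul hQ hZ (by ring)
    · rw [pow_succ, h]
      simp only [Algebra.smul_def, map_mul]
      push_cast
      ring

section

variable {g d : ℕ} {X : Pair g d} {E : Ex X.R X.gr} {A : Type} [CommRing A] [IsDomain A]
  [Algebra ℂ A] [Algebra.FiniteType ℂ A] {F : Family g d A} {b0 : A →ₐ[ℂ] ℂ} {S : At X F b0}

theorem aeval_mem (E : Ex X.R X.gr) {l : ℕ} {P : MvPolynomial (Fin 12) ℂ}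
    (hP : P.IsHomogeneous l) : aeval E.x P ∈ X.gr l := by
  rw [aeval_def, eval₂_eq']
  refine Submodule.sum_mem _ fun e he => ?_
  rw [← Algebra.smul_def]
  refine Submodule.smul_mem _ _ ?_
  have h1 := SetLike.prod_pow_mem_graded (A := X.gr) (F := Finset.univ) (i := fun _ => 1)
    (g := E.x) (fun i => e i) (fun k _ => E.x_mem k)
  have h2 : ∑ k, e k • 1 = l := by
    rw [← Finset.sum_smul, hom_degree hP he, smul_eq_mul, mul_one]
  rw [h2] at h1
  exact h1

end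

theorem st_STEP (hFLAT : ST_FLAT) (hREG : ST_REG) (hSAT : ST_SAT) : ST_STEP := by
  intro g d X E A _ _ _ _ F b0 S L N hN D I k hk hI hqI ε hε hεI hsoc hW
  obtain ⟨W, hW⟩ := hW
  have hν := E.hν
  obtain ⟨ν', hν'⟩ : ∃ ν', E.ν = ν' + 1 := ⟨E.ν - 1, by omega⟩
  have hsplit : ∀ t : X.R, t ^ E.ν = t ^ ν' * t := fun t => by rw [hν', pow_succ]
  have hnat1 : ∀ m n : ℕ, m * E.ν * (n + 1) = ν' * m + m * E.ν * n + m := by
    intro m n; rw [hν']; ring
  have hk' : RingHom.ker b0 ^ k ≤ I ⊔ Ideal.span {ε} := hk.trans le_sup_left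
  have hI' : I ⊔ Ideal.span {ε} ≤ RingHom.ker b0 := by
    refine sup_le hI ?_
    rw [Ideal.span_le]
    intro a ha
    rw [Set.mem_singleton_iff.1 ha]
    exact hε
  have hεI' : ε ∈ I ⊔ Ideal.span {ε} := Ideal.mem_sup_right (Ideal.mem_span_singleton_self ε)
  have hνX : (E.ν : X.R) ≠ 0 := by
    have h1 : (E.ν : X.R) = algebraMap ℂ X.R (E.ν : ℂ) := by rw [map_natCast]
    rw [h1]
    intro h
    have h2 := (map_eq_zero_iff (algebraMap ℂ X.R) (FaithfulSMul.algebraMap_injective ℂ X.R)).1 h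
    have h3 : E.ν = 0 := by exact_mod_cast h2
    omega
  set ub := S.sp L.u with hub
  have hub0 : ub ≠ 0 := L.u0
  -- degrees
  have hm0 : ∀ i, F.n0 ≤ D.m i := fun i => hN.trans (D.hm i)
  have hmν : ∀ i, F.n0 ≤ D.m i * E.ν := fun i =>
    (hm0 i).trans (Nat.le_mul_of_pos_right _ (by omega))
  have hmνn : ∀ i, F.n0 ≤ D.m i * E.ν * (L.n + 1) := fun i =>
    (hmν i).trans (Nat.le_mul_of_pos_right _ (Nat.succ_pos _))
  have hupow : ∀ e, L.u ^ e ∈ F.gr (e * L.n) := fun e => gr_pow e L.hu rfl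
  have hupow0 : ∀ e, S.sp (L.u ^ e) ≠ 0 := fun e => by
    rw [map_pow]; exact pow_ne_zero _ hub0
  have hevP : ∀ i, ev F L.y (D.P i) ∈ F.gr (D.m i * E.ν * (L.n + 1)) := fun i =>
    ev_mem (D.hP i) L.hy rfl
  have hspev : ∀ (l : ℕ) (P : MvPolynomial (Fin 12) ℂ), P.IsHomogeneous l →
      S.sp (ev F L.y P) = ub ^ l * aeval E.x P := by
    intro l P hP
    rw [sp_ev]
    have : (fun i => S.sp (L.y i)) = fun i => E.x i * S.sp L.u := funext L.y0
    rw [this, aeval_mul_hom hP]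
  -- `W i ^ ν * u ^ _ - P i (y) = z1 i + ε • r i`
  have hWd : ∀ i, W i ^ E.ν * L.u ^ (D.m i * E.ν) - ev F L.y (D.P i) ∈
      F.gr (D.m i * E.ν * (L.n + 1)) := fun i =>
    Submodule.sub_mem _ (gr_mul (gr_pow E.ν (hW i).1 rfl) (hupow _) (by ring)) (hevP i)
  have hWI : ∀ i, W i ^ E.ν * L.u ^ (D.m i * E.ν) - ev F L.y (D.P i) ∈
      IR F (I ⊔ Ideal.span {ε}) := fun i => smul_le_IR _ _ (hW i).2.2
  choose z1 hz1 r hr hzr using fun i => IR_sup (hWd i) (hWI i)
  -- (b)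
  have hb : ∀ i, ∃ V, S.sp (r i) = ub ^ (D.m i * E.ν) * V := by
    intro i
    obtain ⟨U, hU, hU1, hU2⟩ := hSAT g d X E A F b0 S L.toSec I k hk hI (D.m i * E.ν) (hmν i)
      (D.P i) (D.hP i)
    have hU2' := smul_le_IR _ _ hU2
    have hWU : W i ^ E.ν - U ∈ F.gr (D.m i * E.ν) :=
      Submodule.sub_mem _ (gr_pow E.ν (hW i).1 (by ring)) hU
    have e1 : L.u ^ (D.m i * E.ν) * (W i ^ E.ν - U) =
        z1 i + ε • r i - (L.u ^ (D.m i * E.ν) * U - ev F L.y (D.P i)) := by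
      rw [← hzr i]; ring
    have h1 : L.u ^ (D.m i * E.ν) * (W i ^ E.ν - U) ∈ IR F (I ⊔ Ideal.span {ε}) := by
      rw [e1]
      exact Ideal.sub_mem _ (Ideal.add_mem _ (IR_mono le_sup_left (hz1 i)) (IR_smul hεI' _))
        (IR_mono le_sup_left hU2')
    have h2 := reg' hREG (hmν i) hk' hI' (hupow _) (hupow0 _) hWU h1
    obtain ⟨v1, hv1, V, hV, hv⟩ := IR_sup hWU h2
    have h3 : S.sp (L.u ^ (D.m i * E.ν) * V - r i) = 0 := by
      refine flat' hFLAT (hmνn i) hεI hsoc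
        (Submodule.sub_mem _ (gr_mul (hupow _) hV (by ring)) (hr i)) ?_
      have e2 : ε • (L.u ^ (D.m i * E.ν) * V - r i) = z1 i -
          (L.u ^ (D.m i * E.ν) * U - ev F L.y (D.P i)) - L.u ^ (D.m i * E.ν) * v1 := by
        rw [hv] at e1
        have e3 : L.u ^ (D.m i * E.ν) * (v1 + ε • V) = L.u ^ (D.m i * E.ν) * v1 +
            ε • (L.u ^ (D.m i * E.ν) * V) := by rw [mul_add, mul_smul_comm]
        rw [e3] at e1
        rw [smul_sub]
        linear_combination e1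
      rw [e2]
      exact Ideal.sub_mem _ (Ideal.sub_mem _ (hz1 i) hU2') (Ideal.mul_mem_left _ _ hv1)
    rw [map_sub, map_mul, map_pow, sub_eq_zero] at h3
    exact ⟨S.sp V, h3.symm⟩
  choose Vb hVb using hb
  -- (a)
  have ha : ∀ (i j : D.ι) (α β : ℕ) (π κ : MvPolynomial (Fin 12) ℂ), N ≤ α → N ≤ β →
      α + D.m i = β + D.m j → π.IsHomogeneous α → κ.IsHomogeneous β →
      aeval E.x π * D.a i = aeval E.x κ * D.a j → aeval E.x π ≠ 0 →
      ∃ s : X.R, (E.ν : X.R) * (aeval E.x π * D.a i) ^ ν' * s * ub ^ ((α + D.m i) * E.ν) =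
        aeval E.x π ^ E.ν * ub ^ (α * E.ν) * S.sp (r i) -
        aeval E.x κ ^ E.ν * ub ^ (β * E.ν) * S.sp (r j) := by
    intro i j α β π κ hα hβ hαβ hπ hκ hpq hp
    obtain ⟨Uπ, hUπ, hUπ1, hUπ2⟩ := hSAT g d X E A F b0 S L.toSec I k hk hI α (hN.trans hα) π hπ
    obtain ⟨Uκ, hUκ, hUκ1, hUκ2⟩ := hSAT g d X E A F b0 S L.toSec I k hk hI β (hN.trans hβ) κ hκ
    have hUπ2' := smul_le_IR _ _ hUπ2
    have hUκ2' := smul_le_IR _ _ hUκ2
    set e := aeval E.x π * D.a i with he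
    have he0 : e ≠ 0 := mul_ne_zero hp (D.ha0 i)
    set E1 := Uπ * W i with hE1
    set E2 := Uκ * W j with hE2
    have hE1m : E1 ∈ F.gr (α + D.m i) := gr_mul hUπ (hW i).1 rfl
    have hE2m : E2 ∈ F.gr (α + D.m i) := gr_mul hUκ (hW j).1 hαβ.symm
    have hspE1 : S.sp E1 = e := by rw [hE1, map_mul, hUπ1, (hW i).2.1]
    have hspE2 : S.sp E2 = e := by rw [hE2, map_mul, hUκ1, (hW j).2.1, ← hpq]
    -- the relation coming from `key`
    have hkey : ev F L.y π ^ E.ν * ev F L.y (D.P i) - ev F L.y κ ^ E.ν * ev F L.y (D.P j) ∈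
        IR F I := by
      have h1 : (π ^ E.ν * D.P i - κ ^ E.ν * D.P j).IsHomogeneous ((α + D.m i) * E.ν) := by
        refine IsHomogeneous.sub ?_ ?_
        · have := (hπ.pow E.ν).mul (D.hP i)
          have e : α * E.ν + D.m i * E.ν = (α + D.m i) * E.ν := by ring
          rwa [e] at this
        · have := (hκ.pow E.ν).mul (D.hP j)
          have e : β * E.ν + D.m j * E.ν = (α + D.m i) * E.ν := by rw [hαβ]; ring
          rwa [e] at this
      have h2 : aeval E.x (π ^ E.ν * D.P i - κ ^ E.ν * D.P j) = 0 := by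
        rw [map_sub, map_mul, map_mul, map_pow, map_pow, ← D.haP, ← D.haP, ← mul_pow, ← mul_pow,
          ← he, ← hpq, sub_self]
      have h3 := L.key _ _ h1 h2
      rw [ev_sub, ev_mul, ev_mul, ev_pow, ev_pow] at h3
      exact IR_mono hqI (smul_le_IR _ _ h3)
    -- comparison
    have hpowI : ∀ (a b : F.R), a - b ∈ IR F I → a ^ E.ν - b ^ E.ν ∈ IR F I := by
      intro a b hab
      obtain ⟨c, hc⟩ := sub_dvd_pow_sub_pow a b E.ν
      rw [hc]
      exact Ideal.mul_mem_right _ _ hab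
    have hcmp : L.u ^ ((α + D.m i) * E.ν) * (E1 ^ E.ν - E2 ^ E.ν) -
        ε • (ev F L.y π ^ E.ν * r i - ev F L.y κ ^ E.ν * r j) ∈ IR F I := by
      have h1 := hpowI _ _ hUπ2'
      have h2 := hpowI _ _ hUκ2'
      have eu1 : L.u ^ ((α + D.m i) * E.ν) * E1 ^ E.ν =
          (L.u ^ α * Uπ) ^ E.ν * (W i ^ E.ν * L.u ^ (D.m i * E.ν)) := by
        rw [hE1]; ring
      have eu2 : L.u ^ ((α + D.m i) * E.ν) * E2 ^ E.ν =
          (L.u ^ β * Uκ) ^ E.ν * (W j ^ E.ν * L.u ^ (D.m j * E.ν)) := by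
        rw [hE2, hαβ]; ring
      have e3 : L.u ^ ((α + D.m i) * E.ν) * (E1 ^ E.ν - E2 ^ E.ν) -
          ε • (ev F L.y π ^ E.ν * r i - ev F L.y κ ^ E.ν * r j) =
          ((L.u ^ α * Uπ) ^ E.ν - ev F L.y π ^ E.ν) * (W i ^ E.ν * L.u ^ (D.m i * E.ν)) -
          ((L.u ^ β * Uκ) ^ E.ν - ev F L.y κ ^ E.ν) * (W j ^ E.ν * L.u ^ (D.m j * E.ν)) +
          (ev F L.y π ^ E.ν * ev F L.y (D.P i) - ev F L.y κ ^ E.ν * ev F L.y (D.P j)) +
          ev F L.y π ^ E.ν * z1 i - ev F L.y κ ^ E.ν * z1 j := by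
        rw [mul_sub, eu1, eu2, smul_sub, ← mul_smul_comm, ← mul_smul_comm]
        linear_combination (ev F L.y π ^ E.ν) * (hzr i) - (ev F L.y κ ^ E.ν) * (hzr j)
      rw [e3]
      refine Ideal.sub_mem _ (Ideal.add_mem _ (Ideal.add_mem _ (Ideal.sub_mem _ ?_ ?_) hkey) ?_) ?_
      · exact Ideal.mul_mem_right _ _ h1
      · exact Ideal.mul_mem_right _ _ h2
      · exact Ideal.mul_mem_left _ _ (hz1 i)
      · exact Ideal.mul_mem_left _ _ (hz1 j)
    set e' := (α + D.m i) with he'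
    have he'n : F.n0 ≤ e' := hN.trans (hα.trans (Nat.le_add_right _ _))
    have hEd : E1 ^ E.ν - E2 ^ E.ν ∈ F.gr (e' * E.ν) :=
      Submodule.sub_mem _ (gr_pow _ hE1m (by ring)) (gr_pow _ hE2m (by ring))
    have h4 : L.u ^ (e' * E.ν) * (E1 ^ E.ν - E2 ^ E.ν) ∈ IR F (I ⊔ Ideal.span {ε}) := by
      have := Ideal.add_mem _ (IR_mono (F := F) (le_sup_left (b := Ideal.span {ε})) hcmp)
        (IR_smul hεI' (ev F L.y π ^ E.ν * r i - ev F L.y κ ^ E.ν * r j))
      rwa [sub_add_cancel] at this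
    have he'ν : F.n0 ≤ e' * E.ν := he'n.trans (Nat.le_mul_of_pos_right _ (by omega))
    have h5 := reg' hREG he'ν hk' hI' (hupow _) (hupow0 _) hEd h4
    -- factor
    set G := ∑ i ∈ Finset.range E.ν, E1 ^ i * E2 ^ (E.ν - 1 - i) with hG
    have hGm : G ∈ F.gr (e' * ν') := by
      refine Submodule.sum_mem _ fun i hi => ?_
      have hi' := Finset.mem_range.1 hi
      refine gr_mul (gr_pow i hE1m rfl) (gr_pow _ hE2m rfl) ?_
      rw [← add_mul, mul_comm e']
      congr 1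
      omega
    have hGE : G * (E1 - E2) = E1 ^ E.ν - E2 ^ E.ν := by
      rw [hG]
      exact (Commute.all E1 E2).geom_sum₂_mul E.ν
    have hspG : S.sp G = (E.ν : X.R) * e ^ ν' := by
      rw [hG, map_sum]
      have : ∀ i ∈ Finset.range E.ν, S.sp (E1 ^ i * E2 ^ (E.ν - 1 - i)) = e ^ ν' := by
        intro i hi
        have hi' := Finset.mem_range.1 hi
        rw [map_mul, map_pow, map_pow, hspE1, hspE2, ← pow_add]
        congr 1
        omega
      rw [Finset.sum_congr rfl this, Finset.sum_const, Finset.card_range, nsmul_eq_mul]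
    have hspG0 : S.sp G ≠ 0 := by
      rw [hspG]; exact mul_ne_zero hνX (pow_ne_zero _ he0)
    have hE12 : E1 - E2 ∈ F.gr e' := Submodule.sub_mem _ hE1m hE2m
    rw [← hGE] at h5
    have h6 := reg' hREG he'n hk' hI' hGm hspG0 hE12 h5
    obtain ⟨z', hz', z, hz, hzz⟩ := IR_sup hE12 h6
    -- final comparison
    have hπm : ev F L.y π ∈ F.gr (α * (L.n + 1)) := ev_mem hπ L.hy rfl
    have hκm : ev F L.y κ ∈ F.gr (β * (L.n + 1)) := ev_mem hκ L.hy rfl
    have h7 : S.sp (L.u ^ (e' * E.ν) * (z * G) - (ev F L.y π ^ E.ν * r i -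
        ev F L.y κ ^ E.ν * r j)) = 0 := by
      refine flat' hFLAT (n := e' * E.ν * (L.n + 1))
        (he'ν.trans (Nat.le_mul_of_pos_right _ (Nat.succ_pos _))) hεI hsoc ?_ ?_
      · refine Submodule.sub_mem _ ?_ (Submodule.sub_mem _ ?_ ?_)
        · refine gr_mul (hupow _) (gr_mul hz hGm rfl) ?_
          rw [hν']; ring
        · refine gr_mul (gr_pow E.ν hπm rfl) (hr i) ?_
          rw [he']; ring
        · refine gr_mul (gr_pow E.ν hκm rfl) (hr j) ?_
          rw [hαβ]; ring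
      · have e8 : ε • (L.u ^ (e' * E.ν) * (z * G) - (ev F L.y π ^ E.ν * r i -
            ev F L.y κ ^ E.ν * r j)) =
            (L.u ^ (e' * E.ν) * (E1 ^ E.ν - E2 ^ E.ν) -
            ε • (ev F L.y π ^ E.ν * r i - ev F L.y κ ^ E.ν * r j)) -
            L.u ^ (e' * E.ν) * (G * z') := by
          rw [← hGE, hzz]
          simp only [Algebra.smul_def]
          ring
        rw [e8]
        exact Ideal.sub_mem _ hcmp (Ideal.mul_mem_left _ _ (Ideal.mul_mem_left _ _ hz'))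
    rw [map_sub, map_sub, map_mul, map_mul, map_mul, map_mul, map_pow, map_pow, map_pow,
      hspev α π hπ, hspev β κ hκ, hspG, sub_eq_zero] at h7
    refine ⟨S.sp z, ?_⟩
    rw [← hub] at h7
    linear_combination h7
  -- (c), (d)
  have hfin : ∀ i, D.a i ^ ν' * ub ^ (D.m i * E.ν) ∣ S.sp (r i) := by
    intro i
    set Di := D.a i ^ ν' * ub ^ (D.m i * E.ν) with hDi
    have hDi0 : Di ≠ 0 := mul_ne_zero (pow_ne_zero _ (D.ha0 i)) (pow_ne_zero _ hub0)
    have hgen : ∀ z : X.R, z ∈ Ideal.span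
        {e : X.R | ∃ (j : D.ι) (α β : ℕ) (π κ : MvPolynomial (Fin 12) ℂ), N ≤ α ∧ N ≤ β ∧
        α + D.m i = β + D.m j ∧ π.IsHomogeneous α ∧ κ.IsHomogeneous β ∧
        aeval E.x π * D.a i = aeval E.x κ * D.a j ∧ e = aeval E.x π * aeval E.x (D.P j)} →
        Di ∣ S.sp (r i) * z := by
      intro z hz
      refine Submodule.span_induction (p := fun z _ => Di ∣ S.sp (r i) * z) ?_ ?_ ?_ ?_ hz
      · rintro _ ⟨j, α, β, π, κ, hα, hβ, hαβ, hπ, hκ, hpq, rfl⟩
        by_cases hp : aeval E.x π = 0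
        · rw [hp, zero_mul, mul_zero]
          exact dvd_zero _
        · obtain ⟨s, hs⟩ := ha i j α β π κ hα hβ hαβ hπ hκ hpq hp
          have hmain : (aeval E.x π ^ ν' * ub ^ (α * E.ν)) *
              (S.sp (r i) * (aeval E.x π * aeval E.x (D.P j))) =
              (aeval E.x π ^ ν' * ub ^ (α * E.ν)) *
              (Di * ((E.ν : X.R) * s * D.a j ^ E.ν + (aeval E.x π * D.a i) * Vb j)) := by
            rw [← D.haP j, hDi]
            have e1 : ub ^ (β * E.ν) * ub ^ (D.m j * E.ν) = ub ^ (α * E.ν) * ub ^ (D.m i * E.ν) := by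
              rw [← pow_add, ← pow_add, ← add_mul, ← add_mul, hαβ]
            have e2 : ub ^ ((α + D.m i) * E.ν) = ub ^ (α * E.ν) * ub ^ (D.m i * E.ν) := by
              rw [← pow_add, ← add_mul]
            have e3 : aeval E.x κ ^ E.ν * D.a j ^ E.ν = (aeval E.x π * D.a i) ^ E.ν := by
              rw [← mul_pow, ← hpq]
            rw [hVb j, e2] at hs
            have e4 : aeval E.x κ ^ E.ν * ub ^ (β * E.ν) * (ub ^ (D.m j * E.ν) * Vb j) *
                D.a j ^ E.ν = (aeval E.x π * D.a i) ^ E.ν *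
                (ub ^ (α * E.ν) * ub ^ (D.m i * E.ν)) * Vb j := by
              rw [← e3, ← e1]; ring
            have e5 := hsplit (aeval E.x π * D.a i)
            rw [e5] at e4
            have e6 := hsplit (aeval E.x π)
            rw [e6] at hs
            rw [mul_pow] at hs e4
            linear_combination (-D.a j ^ E.ν) * hs + e4
          have hc0 : aeval E.x π ^ ν' * ub ^ (α * E.ν) ≠ 0 :=
            mul_ne_zero (pow_ne_zero _ hp) (pow_ne_zero _ hub0)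
          rw [mul_left_cancel₀ hc0 hmain]
          exact Dvd.intro _ rfl
      · rw [mul_zero]; exact dvd_zero _
      · intro x y _ _ hx hy
        rw [mul_add]
        exact dvd_add hx hy
      · intro a x _ hx
        rw [smul_eq_mul, mul_left_comm]
        exact Dvd.dvd.mul_left hx a
    obtain ⟨K0, hK0⟩ := D.prim i (E.x 0) (Or.inl rfl)
    obtain ⟨K1, hK1⟩ := D.prim i (E.x 1) (Or.inr rfl)
    refine E.good (S.sp (r i)) Di (K0 + K1) hDi0 ?_ ?_
    · rw [pow_add, ← mul_assoc]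
      exact Dvd.dvd.mul_right (hgen _ hK0) _
    · rw [pow_add, mul_comm (E.x 1 ^ K0), ← mul_assoc]
      exact Dvd.dvd.mul_right (hgen _ hK1) _
  -- the corrections
  have hZ : ∀ i, ∃ Z ∈ F.gr (D.m i), (E.ν : X.R) * (D.a i ^ ν' * ub ^ (D.m i * E.ν)) * S.sp Z =
      - S.sp (r i) := by
    intro i
    obtain ⟨w, hw⟩ := hfin i
    have hDm : D.a i ^ ν' * ub ^ (D.m i * E.ν) ∈ X.gr (ν' * D.m i + D.m i * E.ν * L.n) := by
      have h1 := SetLike.pow_mem_graded (A := X.gr) ν' (D.ha i)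
      have h2 := S.gr _ _ (hupow (D.m i * E.ν))
      rw [map_pow] at h2
      exact SetLike.mul_mem_graded h1 h2
    have hrm : S.sp (r i) ∈ X.gr (ν' * D.m i + D.m i * E.ν * L.n + D.m i) := by
      have h1 := S.gr _ _ (hr i)
      rwa [hnat1 (D.m i) L.n] at h1
    obtain ⟨w', hw'm, hw'⟩ := hom_quot X hDm hrm hw
    obtain ⟨Z, hZm, hZ1⟩ := S.surj (D.m i) (hm0 i) (algebraMap ℂ X.R (-(1 / (E.ν : ℂ))) * w') (by
      rw [← Algebra.smul_def]; exact Submodule.smul_mem _ _ hw'm)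
    refine ⟨Z, hZm, ?_⟩
    rw [hZ1, hw']
    have h1 : (E.ν : X.R) = algebraMap ℂ X.R (E.ν : ℂ) := by rw [map_natCast]
    have h2 : (E.ν : ℂ) ≠ 0 := by
      have : E.ν ≠ 0 := by omega
      exact_mod_cast this
    have h3 : algebraMap ℂ X.R (E.ν : ℂ) * algebraMap ℂ X.R (-(1 / (E.ν : ℂ))) = -1 := by
      rw [← map_mul]
      have : (E.ν : ℂ) * (-(1 / (E.ν : ℂ))) = -1 := by field_simp
      rw [this, map_neg, map_one]
    rw [h1]
    linear_combination (D.a i ^ ν' * ub ^ (D.m i * E.ν) * w') * h3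
  choose Z hZm hZ1 using hZ
  refine ⟨fun i => W i + ε • Z i, fun i => ⟨?_, ?_, ?_⟩⟩
  · exact Submodule.add_mem _ (hW i).1 (Submodule.smul_mem _ _ (hZm i))
  · rw [map_add, sp_smul_ker S hε, add_zero, (hW i).2.1]
  · obtain ⟨Q, hQ, hpow⟩ := pow_expand (hW i).1 (hZm i) ε ν'
    have hm : (W i + ε • Z i) ∈ F.gr (D.m i) :=
      Submodule.add_mem _ (hW i).1 (Submodule.smul_mem _ _ (hZm i))
    refine mem_smul_of_IR _ (Submodule.sub_mem _ (gr_mul (gr_pow E.ν hm rfl) (hupow _) (by ring))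
      (hevP i)) ?_
    set T := ((ν' + 1 : ℕ) : F.R) * (W i ^ ν' * Z i) * L.u ^ (D.m i * E.ν) + r i with hT
    have e1 : (W i + ε • Z i) ^ E.ν * L.u ^ (D.m i * E.ν) - ev F L.y (D.P i) =
        z1 i + ε • T + (ε * ε) • (Q * L.u ^ (D.m i * E.ν)) := by
      have e2 : (W i + ε • Z i) ^ E.ν = W i ^ E.ν + ε • (((ν' + 1 : ℕ) : F.R) * (W i ^ ν' * Z i)) +
          (ε * ε) • Q := by
        rw [hν']; exact hpow
      rw [e2, hT]
      have e3 := hzr i
      simp only [Algebra.smul_def] at e3 ⊢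
      linear_combination e3
    rw [e1]
    have hTm : T ∈ F.gr (D.m i * E.ν * (L.n + 1)) := by
      refine Submodule.add_mem _ ?_ (hr i)
      have h1 : W i ^ ν' * Z i * L.u ^ (D.m i * E.ν) ∈ F.gr (D.m i * E.ν * (L.n + 1)) := by
        refine gr_mul (gr_mul (gr_pow ν' (hW i).1 rfl) (hZm i) rfl) (hupow _) ?_
        rw [hnat1 (D.m i) L.n]; ring
      have h2 : ((ν' + 1 : ℕ) : F.R) * (W i ^ ν' * Z i) * L.u ^ (D.m i * E.ν) =
          (ν' + 1) • (W i ^ ν' * Z i * L.u ^ (D.m i * E.ν)) := by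
        rw [nsmul_eq_mul, mul_assoc]
      rw [h2]
      exact Submodule.smul_of_tower_mem _ _ h1
    have hT0 : S.sp T = 0 := by
      rw [hT, map_add, map_mul, map_mul, map_mul, map_natCast, map_pow, map_pow, (hW i).2.1, ← hν']
      linear_combination hZ1 i
    refine Ideal.add_mem _ (Ideal.add_mem _ (hz1 i) (IR_socle hsoc (ker_IR S (hmνn i) hTm hT0))) ?_
    exact IR_smul (hsoc ε hε) _

end Pool.Agent.Helper56.RG
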